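import Pool.Agent.Q60.D3.Stm
import Pool.Agent.W437.HD.Fixed

/-! Independence of the quadratic characters (lemma job CHI of the project D3 of helper60). -/

set_option autoImplicit false

namespace Pool.Agent.Q251.D3

open Pool.Agent.Q60.D3

theorem sq_eq {a b : ℕ} (ha : Squarefree a) (hb : Squarefree b) (h : IsSquare (a * b)) : a = b := by
  obtain ⟨c, hc⟩ := h
  have ha0 := ha.ne_zero
  have hb0 := hb.ne_zero
  have hc0 : c ≠ 0 := by
    rintro rfl
    rw [mul_zero, mul_eq_zero] at hc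
    tauto
  apply Nat.eq_of_factorization_eq ha0 hb0
  intro p
  have h1 : (a * b).factorization p = (c * c).factorization p := by rw [hc]
  rw [Nat.factorization_mul ha0 hb0, Nat.factorization_mul hc0 hc0, Finsupp.add_apply,
    Finsupp.add_apply] at h1
  have h2 := ha.natFactorization_le_one p
  have h3 := hb.natFactorization_le_one p
  omega

section

variable {d : ℕ} {μ : ℂ}

theorem mu_ne (hd : Squarefree d) (hμ : μ * μ = -(d : ℂ)) : μ ≠ 0 := by
  rintro rfl
  have h1 : (d : ℂ) = 0 := by linear_combination hμ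
  exact hd.ne_zero (by exact_mod_cast h1)

theorem map_mu (hμ : μ * μ = -(d : ℂ)) (σ : ℂ ≃+* ℂ) : σ μ = μ ∨ σ μ = -μ := by
  have h1 : σ μ * σ μ = μ * μ := by
    rw [← map_mul, hμ, map_neg, map_natCast]
  exact mul_self_eq_mul_self_iff.1 h1

theorem chi_cases (hd : Squarefree d) (hμ : μ * μ = -(d : ℂ)) (σ : ℂ ≃+* ℂ) :
    (σ μ = μ ∧ chi μ σ = 1) ∨ (σ μ = -μ ∧ chi μ σ = -1) := by
  unfold chi
  rcases map_mu hμ σ with h | h
  · left
    exact ⟨h, if_pos h⟩
  · right
    refine ⟨h, if_neg ?_⟩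
    rw [h]
    intro h2
    apply mu_ne hd hμ
    linear_combination (-1 / 2 : ℂ) * h2

theorem map_eq_chi (hd : Squarefree d) (hμ : μ * μ = -(d : ℂ)) (σ : ℂ ≃+* ℂ) :
    σ μ = (chi μ σ : ℂ) * μ := by
  rcases chi_cases hd hμ σ with ⟨h, h'⟩ | ⟨h, h'⟩
  · rw [h, h']
    simp
  · rw [h, h']
    simp

theorem chi_mul (hd : Squarefree d) (hμ : μ * μ = -(d : ℂ)) (σ τ : ℂ ≃+* ℂ) :
    chi μ (σ * τ) = chi μ σ * chi μ τ := by
  have h1 := map_eq_chi hd hμ (σ * τ)
  have h2 : (σ * τ) μ = σ (τ μ) := rfl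
  rw [h2, map_eq_chi hd hμ τ, map_mul, map_eq_chi hd hμ σ, map_intCast] at h1
  have h3 : ((chi μ τ : ℂ) * (chi μ σ : ℂ)) = (chi μ (σ * τ) : ℂ) := by
    apply mul_right_cancel₀ (mu_ne hd hμ)
    rw [← h1]
    ring
  have h4 : chi μ τ * chi μ σ = chi μ (σ * τ) := by exact_mod_cast h3
  rw [← h4, mul_comm]

/-- the character as a homomorphism -/
noncomputable def X (hd : Squarefree d) (hμ : μ * μ = -(d : ℂ)) : (ℂ ≃+* ℂ) →* ℤ where
  toFun σ := chi μ σ
  map_one' := by
    unfold chi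
    exact if_pos rfl
  map_mul' := chi_mul hd hμ

end

theorem chi_congr {d d' : ℕ} {μ μ' : ℂ} (hd : Squarefree d) (hd' : Squarefree d')
    (hμ : μ * μ = -(d : ℂ)) (hμ' : μ' * μ' = -(d' : ℂ)) :
    (∀ σ : ℂ ≃+* ℂ, chi μ σ = chi μ' σ) ↔ d = d' := by
  constructor
  · intro h
    have hfix : ∀ σ : ℂ ≃+* ℂ, σ (μ * μ') = μ * μ' := by
      intro σ
      rw [map_mul, map_eq_chi hd hμ, map_eq_chi hd' hμ', h σ]
      rcases chi_cases hd' hμ' σ with ⟨-, h'⟩ | ⟨-, h'⟩
      · rw [h']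
        push_cast
        ring
      · rw [h']
        push_cast
        ring
    obtain ⟨q, hq⟩ : ∃ q : ℚ, μ * μ' = q := by
      by_contra hcon
      push Not at hcon
      obtain ⟨σ, hσ⟩ := Pool.Agent.W437.HD.exists_move hcon
      exact hσ (hfix σ)
    have h1 : ((q * q : ℚ) : ℂ) = ((d * d' : ℕ) : ℂ) := by
      push_cast
      rw [← hq]
      linear_combination (μ' * μ') * hμ - (d : ℂ) * hμ'
    have h2 : q * q = ((d * d' : ℕ) : ℚ) := by exact_mod_cast h1
    apply sq_eq hd hd'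
    have h3 : IsSquare (((d * d' : ℕ) : ℚ)) := ⟨q, h2.symm⟩
    exact Rat.isSquare_natCast_iff.1 h3
  · rintro rfl σ
    have h1 : μ * μ = μ' * μ' := by rw [hμ, hμ']
    rcases mul_self_eq_mul_self_iff.1 h1 with h | h
    · rw [h]
    · rw [h]
      unfold chi
      rw [map_neg]
      simp only [neg_inj]

theorem t_CHI : S_chi := by
  classical
  intro m d hd μ hμ s hsum e
  have hli := linearIndependent_monoidHom (ℂ ≃+* ℂ) ℤ
  obtain ⟨f, hf⟩ : ∃ f : Fin m → ((ℂ ≃+* ℂ) →* ℤ), f = fun j => X (hd j) (hμ j) := ⟨_, rfl⟩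
  have hff : ∀ i j, f i = f j ↔ d i = d j := by
    intro i j
    rw [← chi_congr (hd i) (hd j) (hμ i) (hμ j), hf]
    constructor
    · intro h σ
      exact DFunLike.congr_fun h σ
    · intro h
      ext σ
      exact h σ
  have h1 : ∑ g ∈ Finset.univ.image f, (∑ j, if f j = g then s j else 0) • (g : (ℂ ≃+* ℂ) → ℤ) =
      0 := by
    funext σ
    rw [Finset.sum_apply, Pi.zero_apply]
    refine Eq.trans ?_ (hsum σ)
    have h2 : ∀ g ∈ Finset.univ.image f,
        ((∑ j, if f j = g then s j else 0) • (g : (ℂ ≃+* ℂ) → ℤ)) σ =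
        ∑ j, if f j = g then s j * chi (μ j) σ else 0 := by
      intro g _
      rw [Pi.smul_apply, smul_eq_mul, Finset.sum_mul]
      refine Finset.sum_congr rfl fun j _ => ?_
      split_ifs with h
      · rw [← h, hf]
        rfl
      · rw [zero_mul]
    rw [Finset.sum_congr rfl h2, Finset.sum_comm]
    refine Finset.sum_congr rfl fun j _ => ?_
    rw [Finset.sum_ite_eq, if_pos (Finset.mem_image_of_mem _ (Finset.mem_univ j))]
  have h3 := linearIndependent_iff'.1 hli (Finset.univ.image f)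
    (fun g => ∑ j, if f j = g then s j else 0) h1
  by_cases he : ∃ j, d j = e
  · obtain ⟨j0, rfl⟩ := he
    have h4 := h3 (f j0) (Finset.mem_image_of_mem _ (Finset.mem_univ j0))
    simp only [hff] at h4
    exact h4
  · push Not at he
    apply Finset.sum_eq_zero
    intro j _
    rw [if_neg (he j)]

end Pool.Agent.Q251.D3
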