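import Pool.Agent.Q60.D3.Stm

/-! Elliptic curves with complex multiplication (lemma job ELL of the project D3 of helper60). -/

set_option autoImplicit false

namespace Pool.Agent.Q251.D3

open Pool.Agent.H204R3.CM Pool.Agent.Q60.D3

theorem mu_facts {d : ℕ} (hd : 0 < d) {μ : ℂ} (hμ : μ * μ = -(d : ℂ)) :
    μ.re = 0 ∧ μ.im ≠ 0 := by
  have h1 := congrArg Complex.re hμ
  have h2 := congrArg Complex.im hμ
  simp only [Complex.mul_re, Complex.mul_im, Complex.neg_re, Complex.neg_im, Complex.natCast_re,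
    Complex.natCast_im] at h1 h2
  have hd' : (0 : ℝ) < d := by exact_mod_cast hd
  have h3 : μ.im ≠ 0 := by
    intro h
    rw [h] at h1
    nlinarith [mul_self_nonneg μ.re]
  refine ⟨?_, h3⟩
  have h4 : μ.re * μ.im = 0 := by linarith
  rcases mul_eq_zero.1 h4 with h | h
  · exact h
  · exact absurd h h3

/-- the period map of the elliptic curve -/
noncomputable def perE (μ : ℂ) : (Fin 2 → ℚ) →+ ℂ where
  toFun v := (v 0 : ℂ) + (v 1 : ℂ) * μ
  map_zero' := by simp
  map_add' v w := by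
    simp only [Pi.add_apply]
    push_cast
    ring

theorem perE_apply (μ : ℂ) (v : Fin 2 → ℚ) : perE μ v = (v 0 : ℂ) + (v 1 : ℂ) * μ := rfl

theorem span_perE {μ : ℂ} (h : μ.re = 0 ∧ μ.im ≠ 0) :
    Submodule.span ℝ (Set.range (perE μ)) = ⊤ := by
  rw [eq_top_iff]
  intro z _
  have h1 : z = z.re • perE μ ![1, 0] + (z.im / μ.im) • perE μ ![0, 1] := by
    rw [perE_apply, perE_apply]
    apply Complex.ext
    · simp [h.1]
    · have := h.2
      simp
      field_simp
  rw [h1]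
  exact Submodule.add_mem _ (Submodule.smul_mem _ _ (Submodule.subset_span ⟨_, rfl⟩))
    (Submodule.smul_mem _ _ (Submodule.subset_span ⟨_, rfl⟩))

theorem conj_mu {μ : ℂ} (h : μ.re = 0 ∧ μ.im ≠ 0) : starRingEnd ℂ μ = -μ := by
  apply Complex.ext
  · simp [h.1]
  · simp

theorem pol_perE {μ : ℂ} (h : μ.re = 0 ∧ μ.im ≠ 0) : ∃ E : ℂ → ℂ → ℂ,
    (∀ u', IsLinearMap ℂ fun u => E u u') ∧
    (∀ u u', E u' u = starRingEnd ℂ (E u u')) ∧ (∀ u, u ≠ 0 → 0 < (E u u).re) ∧
    ∀ v w, ∃ q : ℚ, (E (perE μ v) (perE μ w)).im = q := by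
  have hpos : 0 < |μ.im| := abs_pos.2 h.2
  refine ⟨fun u v => u * starRingEnd ℂ v / ((|μ.im| : ℝ) : ℂ), fun u' => ⟨fun a b => ?_,
    fun c a => ?_⟩, fun u u' => ?_, fun u hu => ?_, fun v w => ?_⟩
  · simp only
    ring
  · simp only [smul_eq_mul]
    ring
  · simp only [map_div₀, map_mul, Complex.conj_conj, Complex.conj_ofReal]
    ring
  · simp only
    rw [Complex.mul_conj, ← Complex.ofReal_div, Complex.ofReal_re]
    exact div_pos (Complex.normSq_pos.2 hu) hpos
  · simp only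
    have h1 : perE μ v * starRingEnd ℂ (perE μ w) / ((|μ.im| : ℝ) : ℂ) =
        (((v 0 * w 0 : ℚ) : ℂ) - ((v 1 * w 1 : ℚ) : ℂ) * (μ * μ) +
          ((v 1 * w 0 - v 0 * w 1 : ℚ) : ℂ) * μ) / ((|μ.im| : ℝ) : ℂ) := by
      rw [perE_apply, perE_apply, map_add, map_mul, conj_mu h]
      simp only [map_ratCast]
      push_cast
      ring
    have h2 : μ * μ = ((-(μ.im * μ.im) : ℝ) : ℂ) := by
      apply Complex.ext
      · simp [h.1]
      · simp [h.1]
    have h3 : (perE μ v * starRingEnd ℂ (perE μ w) / ((|μ.im| : ℝ) : ℂ)).im =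
        ((v 1 * w 0 - v 0 * w 1 : ℚ) : ℝ) * (μ.im / |μ.im|) := by
      rw [h1, h2, Complex.div_ofReal_im]
      have h4 : ∀ (a b c : ℚ) (x : ℝ), ((a : ℂ) - (b : ℂ) * (x : ℂ) + (c : ℂ) * μ).im =
          (c : ℝ) * μ.im := by
        intro a b c x
        simp [Complex.add_im, Complex.sub_im, Complex.mul_im]
      rw [h4]
      ring
    rw [h3]
    rcases lt_or_gt_of_ne h.2 with h5 | h5
    · refine ⟨-(v 1 * w 0 - v 0 * w 1), ?_⟩
      rw [abs_of_neg h5, div_neg, div_self h.2]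
      push_cast
      ring
    · refine ⟨v 1 * w 0 - v 0 * w 1, ?_⟩
      rw [abs_of_pos h5, div_self h.2]
      ring

/-- the elliptic curve -/
noncomputable def ellAV (μ : ℂ) (h : μ.re = 0 ∧ μ.im ≠ 0) : AV where
  H := Fin 2 → ℚ
  T := ℂ
  per := perE μ
  span := span_perE h
  dim := by rw [Module.finrank_self, Module.finrank_fin_fun]
  pol := pol_perE h

/-- the complex multiplication -/
noncomputable def phiE (d : ℕ) (s : ℚ) : (Fin 2 → ℚ) →ₗ[ℚ] (Fin 2 → ℚ) where
  toFun v := ![-(s * (d : ℚ) * v 1), s * v 0]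
  map_add' v w := by
    ext i
    fin_cases i
    · simp
      ring
    · simp
      ring
  map_smul' c v := by
    ext i
    fin_cases i
    · simp
      ring
    · simp
      ring

theorem phiE_sq (d : ℕ) (s : ℚ) (hs : s * s = 1) (w : Fin 2 → ℚ) :
    phiE d s (phiE d s w) = -((d : ℚ) • w) := by
  have h1 : ∀ v : Fin 2 → ℚ, phiE d s v = ![-(s * (d : ℚ) * v 1), s * v 0] := fun _ => rfl
  ext i
  rw [h1, h1]
  fin_cases i
  · simp
    linear_combination ((d : ℚ) * w 0) * hs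
  · simp
    linear_combination ((d : ℚ) * w 1) * hs

theorem perE_phiE {d : ℕ} {μ : ℂ} (hμ : μ * μ = -(d : ℂ)) (s : ℚ) (w : Fin 2 → ℚ) :
    perE μ (phiE d s w) = (s : ℂ) * μ * perE μ w := by
  have h1 : ∀ v : Fin 2 → ℚ, phiE d s v = ![-(s * (d : ℚ) * v 1), s * v 0] := fun _ => rfl
  rw [perE_apply, perE_apply, h1]
  simp only [Matrix.cons_val_zero, Matrix.cons_val_one]
  push_cast
  linear_combination (-(s : ℂ) * (w 1 : ℂ)) * hμ

/-- conjugation as a rational linear map -/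
noncomputable def conjQ : ℂ →ₗ[ℚ] ℂ := (starRingEnd ℂ).toRatAlgHom.toLinearMap

theorem conjQ_apply (z : ℂ) : conjQ z = starRingEnd ℂ z := rfl

/-- a linear form as an alternating form of degree one -/
noncomputable def alt1 {H : Type} [AddCommGroup H] [Module ℚ H] (f : H →ₗ[ℚ] ℂ) :
    H [⋀^Fin 1]→ₗ[ℚ] ℂ := AlternatingMap.ofSubsingleton ℚ H ℂ 0 f

theorem alt1_apply {H : Type} [AddCommGroup H] [Module ℚ H] (f : H →ₗ[ℚ] ℂ) (v : Fin 1 → H) :
    alt1 f v = f (v 0) := rfl

theorem t_ELL : S_ell := by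
  intro d hd μ hμ
  have hd0 : 0 < d := Nat.pos_of_ne_zero hd.ne_zero
  have hf := mu_facts hd0 hμ
  let perQ : (Fin 2 → ℚ) →ₗ[ℚ] ℂ := (perE μ).toRatLinearMap
  have hperQ : ∀ v, perQ v = perE μ v := fun _ => rfl
  refine ⟨ellAV μ hf, Pi.basisFun ℚ (Fin 2),
    { hn := Or.inl rfl
      dimA := Module.finrank_self ℂ
      φ := phiE d 1
      hφ := ⟨μ • LinearMap.id, fun w => ?_⟩
      d := d
      hd := hd
      sq := phiE_sq d 1 (by norm_num)
      δ := alt1 perQ
      μ := μ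
      hμ := hμ
      eig := ?_
      s := 1
      hs := Or.inl rfl
      wt := ?_ },
    { hn := Or.inl rfl
      dimA := Module.finrank_self ℂ
      φ := phiE d (-1)
      hφ := ⟨(-μ) • LinearMap.id, fun w => ?_⟩
      d := d
      hd := hd
      sq := phiE_sq d (-1) (by norm_num)
      δ := alt1 (conjQ ∘ₗ perQ)
      μ := μ
      hμ := hμ
      eig := ?_
      s := -1
      hs := Or.inr rfl
      wt := ?_ }, rfl, rfl, rfl, rfl, rfl, rfl, ?_⟩
  · change μ * perE μ w = perE μ (phiE d 1 w)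
    rw [perE_phiE hμ]
    push_cast
    ring
  · intro v k
    fin_cases k
    change perE μ (Function.update v 0 (phiE d 1 (v 0)) 0) = μ * perE μ (v 0)
    rw [Function.update_self, perE_phiE hμ]
    push_cast
    ring
  · refine ⟨MultilinearMap.ofSubsingleton ℝ ℂ ℂ (0 : Fin 1) LinearMap.id, fun v => rfl, ?_⟩
    intro z hz u
    rw [zpow_one]
    rfl
  · change (-μ) * perE μ w = perE μ (phiE d (-1) w)
    rw [perE_phiE hμ]
    push_cast
    ring
  · intro v k
    fin_cases k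
    change starRingEnd ℂ (perE μ (Function.update v 0 (phiE d (-1) (v 0)) 0)) =
      μ * starRingEnd ℂ (perE μ (v 0))
    rw [Function.update_self, perE_phiE hμ, map_mul, map_mul, conj_mu hf]
    simp only [map_ratCast]
    push_cast
    ring
  · refine ⟨MultilinearMap.ofSubsingleton ℝ ℂ ℂ (0 : Fin 1) Complex.conjAe.toLinearMap,
      fun v => rfl, ?_⟩
    intro z hz (u : Fin 1 → ℂ)
    change starRingEnd ℂ (z * u 0) = z ^ (-1 : ℤ) * starRingEnd ℂ (u 0)
    rw [map_mul, zpow_neg, zpow_one]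
    congr 1
    rw [Complex.inv_def, Complex.normSq_eq_norm_sq, hz]
    simp
  · change perE μ (Pi.basisFun ℚ (Fin 2) 0) * starRingEnd ℂ (perE μ (Pi.basisFun ℚ (Fin 2) 1)) -
      perE μ (Pi.basisFun ℚ (Fin 2) 1) * starRingEnd ℂ (perE μ (Pi.basisFun ℚ (Fin 2) 0)) ≠ 0
    rw [perE_apply, perE_apply]
    simp only [Pi.basisFun_apply, Pi.single_eq_same, Rat.cast_one, map_add, map_mul, map_one,
      conj_mu hf]
    simp
    intro h
    have h1 : μ = 0 := by linear_combination (-1 / 2 : ℂ) * h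
    exact hf.2 (by rw [h1]; rfl)

end Pool.Agent.Q251.D3
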